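import Pool.Agent.H48.IndexOne.Main

/-!
# A closed manifold in which no minimal hypersurface has Morse index one

For every `n ≥ 2` there is a compact connected smooth hypersurface `M` of `ℝ ^ (n + 2)`, with the
induced Riemannian metric (so `M` is a complete Riemannian manifold of dimension `n + 1`), such
that

* every hypersurface of `M` (closed as a subset, smooth, embedded) is two-sided,
* `M` satisfies condition (*): it contains a bounded open set `U` with smooth boundary whose
  boundary has area at most a tenth of the relative width of `U`,
* no minimal hypersurface of `M` of finite area has Morse index one.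

All notions used are defined in `Pool.Agent.H48.IndexOne.Defs`.

The example is a long round cylinder `S ^ n × [-T, T]` closed by two caps.  With `Y` the closed
conformal field of this rotationally symmetric metric, the first variation formula applied to
`h(t) Y` says that the flux `∫ |∇t| ^ 2` of a minimal hypersurface `Γ` through the slab
`{a ≤ t ≤ b}` of the cylinder is `(b - a)` times a constant `c`.  If `c = 0` then `Γ` consists of
slices `S ^ n × {t}` and is stable; if `c > 0` then the functions `ψ(t)` with `ψ` a first
eigenfunction of an interval of length larger than `π`, supported in the cylinder, make the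
second variation negative, and `T` is so large that two disjoint such intervals fit.
-/

open MeasureTheory Set Module Pool.Agent.H48.IndexOne

namespace Pool.Agent.Results.MP_ab8e05_gt.NoIndexOne

theorem result (n : ℕ) (hn : 2 ≤ n) :
    ∃ M : EuclideanHypersurface (EuclideanSpace ℝ (Fin (n + 2))),
      IsCompact M.carrier ∧
      (∀ Γ : Set (EuclideanSpace ℝ (Fin (n + 2))), M.IsHypersurface Γ → M.IsTwoSided Γ) ∧
      M.ConditionStar n ∧
      ∀ Γ : Set (EuclideanSpace ℝ (Fin (n + 2))), M.IsHypersurface Γ → M.IsMinimal n Γ →
        μHE[n] Γ ≠ ⊤ → M.morseIndex n Γ ≠ 1 :=
  main hn (by simp)

end Pool.Agent.Results.MP_ab8e05_gt.NoIndexOne
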